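import Pool.Agent.H.MP_8db76d_al.Nine

/-!
Disproof of Q1 of MP_8db76d_al: over every field of characteristic different from 2 and 3 there is
a 9-dimensional simple (hence indecomposable) primitive axial algebra with four axes, with a Seress
fusion law and with a Frobenius form having an orthonormal basis, whose non-annihilation graph is
disconnected.
-/

namespace Pool.Agent.Results.MP_8db76d_al.DisconnectedSimple

open Pool.Agent.H.MP_8db76d_al

universe u

theorem result (K : Type u) [Field K] (h2 : (2 : K) ≠ 0) (h3 : (3 : K) ≠ 0) :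
    ∃ (A : Type u) (_ : NonUnitalNonAssocCommRing A) (_ : Module K A)
      (_ : IsScalarTower K A A) (_ : SMulCommClass K A A) (F : FusionLaw K) (X : Set A),
      IsPrimitiveAxialAlgebra F X ∧ F.IsSeress ∧ X.ncard = 4 ∧
      Indecomposable K A ∧ IsSimpleAlg K A ∧
      ¬ (nonAnnGraph X).Connected ∧
      ∃ B : LinearMap.BilinForm K A, IsFrobenius K A B ∧ (∀ x ∈ X, B x x = 1) ∧
        ∃ b : Module.Basis (Fin 9) K A, ∀ i j, B (b i) (b j) = if i = j then 1 else 0 := by
  refine ⟨Nine.Alg K, inferInstance, inferInstance, inferInstance, inferInstance,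
    seressLaw (Nine.S K) Nine.one_mem_S, Nine.X K,
    ⟨Nine.isPrimitiveAxis h2 h3, Nine.adjoin_X⟩, seressLaw_isSeress _ _ Nine.zero_mem_S, ?_,
    (Nine.simple h2 h3).indecomposable, Nine.simple h2 h3, Nine.not_connected,
    Nine.form K, Nine.form_frobenius h2, ?_, Nine.onb h2, Nine.onb_form h2⟩
  · have hX : Nine.X K = (({0, 1, 4, 5} : Finset (Fin 9)) : Set (Fin 9)).image (Nine.E K) := by
      ext x
      simp only [Nine.X, Finset.coe_insert, Finset.coe_singleton, Set.image_insert_eq,
        Set.image_singleton]
    rw [hX, Set.ncard_image_of_injective _ (fun i j h => by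
      by_contra hne
      exact Nine.E_ne hne h), Set.ncard_coe_finset]
    rfl
  · intro x hx
    rcases hx with rfl | rfl | rfl | rfl <;> simp [Nine.form_apply, Nine.E_apply]

end Pool.Agent.Results.MP_8db76d_al.DisconnectedSimple
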