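import Pool.Agent.H.MP_8db76d_al.Final

/-!
Disproof of Q1 of MP_8db76d_al within the class of simple real axial algebras of Monster type with
a positive definite Frobenius form: for every real `η` with `0 < η < 1/2` there is a 39-dimensional
simple primitive axial algebra of Monster type `(2η, η)`, generated by 24 primitive axes, whose
non-annihilation graph is disconnected.
-/

namespace Pool.Agent.Results.MP_8db76d_al.MonsterTypeSimple

open Pool.Agent.H.MP_8db76d_al.Bil

theorem result (η : ℝ) (h0 : 0 < η) (h1 : η < 1 / 2) :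
    ∃ (V : Type) (_ : AddCommGroup V) (_ : Module ℝ V) (m : V →ₗ[ℝ] V →ₗ[ℝ] V) (X : Set V),
      IsPrimitiveAxialAlgebra m (monsterLaw (2 * η) η) X ∧ X.ncard = 24 ∧
      Module.finrank ℝ V = 39 ∧ IsSimpleAlg m ∧ Indecomposable m ∧
      ¬ (nonAnnGraph m X).Connected ∧
      ∃ B : LinearMap.BilinForm ℝ V, IsFrobenius m B ∧ ∀ v, v ≠ 0 → 0 < B v v :=
  ⟨Pool.Agent.H.MP_8db76d_al.Final.AA, inferInstance, inferInstance,
    Pool.Agent.H.MP_8db76d_al.Final.mA η, Pool.Agent.H.MP_8db76d_al.Final.XX,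
    Pool.Agent.H.MP_8db76d_al.Final.axial h0 h1, Pool.Agent.H.MP_8db76d_al.Final.ncard_XX,
    Pool.Agent.H.MP_8db76d_al.Final.finrank_AA, Pool.Agent.H.MP_8db76d_al.Final.simple h0 h1,
    (Pool.Agent.H.MP_8db76d_al.Final.simple h0 h1).indecomposable,
    Pool.Agent.H.MP_8db76d_al.Final.not_connected η,
    Pool.Agent.H.MP_8db76d_al.Final.B η, Pool.Agent.H.MP_8db76d_al.Final.B_frobenius η,
    fun v hv => Pool.Agent.H.MP_8db76d_al.Final.B_pos h0 h1 v hv⟩

end Pool.Agent.Results.MP_8db76d_al.MonsterTypeSimple
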